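import Mathlib
import Pool.Agent.Helper28.CY.Act
import Pool.Agent.Helper51.CY.N9

/-!
# The discriminants are not squares (CY-9c, CY-9d)
-/

set_option autoImplicit false

namespace Pool.Agent.Helper32.CY

open MvPolynomial Pool.Agent.Helper37.RP Pool.Agent.Helper76.CY Pool.Agent.Helper92.CY

open scoped Matrix

section parity

variable {L : Type*} [Field L]

/-- Parity of the order along a prime factor. -/
theorem parity {A : Type*} [CommRing A] [IsDomain A] [UniqueFactorizationMonoid A]
    (φ : A →+* PowerSeries L) (H P r0 r1 : A)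
    (hH : PowerSeries.constantCoeff (φ H) ≠ 0) (h0 : PowerSeries.constantCoeff (φ P) = 0)
    (h1 : PowerSeries.coeff 1 (φ P) ≠ 0) (h : H * r0 ^ 2 = r1 ^ 2 * P) : r0 = 0 ∧ r1 = 0 := by
  have hP : P ≠ 0 := by
    rintro rfl
    simp at h1
  have hH0 : H ≠ 0 := by
    rintro rfl
    simp at hH
  set f : A →+* L := (PowerSeries.constantCoeff (R := L)).comp φ with hf
  have hfP : f P = 0 := h0
  have hfH : f H ≠ 0 := hH
  obtain ⟨q, hq, hqP, hq0⟩ : ∃ q, Prime q ∧ q ∣ P ∧ f q = 0 := by
    obtain ⟨u, hu⟩ := UniqueFactorizationMonoid.factors_prod hP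
    have e1 : f (UniqueFactorizationMonoid.factors P).prod = 0 := by
      have e2 : f (UniqueFactorizationMonoid.factors P).prod * f u = 0 := by
        rw [← map_mul, hu, hfP]
      rcases mul_eq_zero.1 e2 with e3 | e3
      · exact e3
      · exact absurd e3 (u.isUnit.map f).ne_zero
    rw [map_multiset_prod, Multiset.prod_eq_zero_iff, Multiset.mem_map] at e1
    obtain ⟨q, hq1, hq2⟩ := e1
    exact ⟨q, UniqueFactorizationMonoid.prime_of_factor q hq1,
      UniqueFactorizationMonoid.dvd_of_mem_factors hq1, hq2⟩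
  obtain ⟨g, hg⟩ := hqP
  have hqg : ¬ q ∣ g := by
    rintro ⟨e, rfl⟩
    apply h1
    rw [hg]
    have hq0' : PowerSeries.constantCoeff (φ q) = 0 := hq0
    obtain ⟨w, hw⟩ := PowerSeries.X_dvd_iff.2 hq0'
    have e4 : φ (q * (q * e)) = PowerSeries.X ^ 2 * (w * w * φ e) := by
      rw [map_mul, map_mul, hw]
      ring
    rw [e4, PowerSeries.coeff_X_pow_mul']
    simp
  have hqH : ¬ q ∣ H := by
    rintro ⟨e, he⟩
    apply hfH
    rw [he, map_mul, hq0, zero_mul]
  by_cases hr0 : r0 = 0
  · subst hr0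
    have : r1 ^ 2 * P = 0 := by
      rw [← h]
      ring
    rcases mul_eq_zero.1 this with e | e
    · exact ⟨rfl, pow_eq_zero_iff (two_ne_zero) |>.1 e⟩
    · exact absurd e hP
  by_cases hr1 : r1 = 0
  · subst hr1
    have : H * r0 ^ 2 = 0 := by
      rw [h]
      ring
    rcases mul_eq_zero.1 this with e | e
    · exact absurd e hH0
    · exact absurd (pow_eq_zero_iff (two_ne_zero) |>.1 e) hr0
  exfalso
  obtain ⟨m, a, ha, hm⟩ := WfDvdMonoid.max_power_factor hr0 hq.irreducible
  obtain ⟨n, b, hb, hn⟩ := WfDvdMonoid.max_power_factor hr1 hq.irreducible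
  rw [hm, hn, hg] at h
  rcases Nat.lt_or_ge n m with hnm | hnm
  · obtain ⟨t, rfl⟩ : ∃ t, m = n + 1 + t := ⟨m - (n + 1), by omega⟩
    have e5 : q ^ (2 * n + 1) * (q * (H * q ^ (2 * t) * a ^ 2)) = q ^ (2 * n + 1) * (b ^ 2 * g) := by
      have : q ^ (2 * n + 1) * (q * (H * q ^ (2 * t) * a ^ 2)) =
          H * (q ^ (n + 1 + t) * a) ^ 2 := by ring
      rw [this, h]
      ring
    have e6 := mul_left_cancel₀ (pow_ne_zero _ hq.ne_zero) e5
    rcases hq.dvd_or_dvd (Dvd.intro _ e6) with e7 | e7
    · exact hb (hq.dvd_of_dvd_pow e7)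
    · exact hqg e7
  · obtain ⟨t, rfl⟩ : ∃ t, n = m + t := ⟨n - m, by omega⟩
    have e5 : q ^ (2 * m) * (H * a ^ 2) = q ^ (2 * m) * (q * (q ^ (2 * t) * b ^ 2 * g)) := by
      have : q ^ (2 * m) * (H * a ^ 2) = H * (q ^ m * a) ^ 2 := by ring
      rw [this, h]
      ring
    have e6 := mul_left_cancel₀ (pow_ne_zero _ hq.ne_zero) e5
    rcases hq.dvd_or_dvd (Dvd.intro _ e6.symm) with e7 | e7
    · exact hqH e7
    · exact ha (hq.dvd_of_dvd_pow e7)

/-- The first order term of a quadratic form on a jet. -/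
theorem jet_bil (v : Fin 4 → PowerSeries L) (M : Matrix (Fin 4) (Fin 4) (PowerSeries L))
    (hM : ∀ i j, M i j = M j i) (hv : ∀ j, j ≠ 0 → PowerSeries.constantCoeff (v j) = 0)
    (hM0 : ∀ j, PowerSeries.constantCoeff (M 0 j) = 0) :
    PowerSeries.constantCoeff (bil M v v) = 0 ∧
      PowerSeries.coeff 1 (bil M v v) =
        PowerSeries.constantCoeff (v 0) ^ 2 * PowerSeries.coeff 1 (M 0 0) := by
  have c1 : ∀ f g : PowerSeries L, PowerSeries.coeff 1 (f * g) =
      PowerSeries.constantCoeff f * PowerSeries.coeff 1 g +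
        PowerSeries.coeff 1 f * PowerSeries.constantCoeff g := by
    intro f g
    rw [PowerSeries.coeff_one_mul]
    ring
  have hM0' : ∀ j, PowerSeries.constantCoeff (M j 0) = 0 := fun j => by rw [hM, hM0]
  constructor
  · simp only [bil, map_sum, map_mul]
    refine Finset.sum_eq_zero fun i _ => Finset.sum_eq_zero fun j _ => ?_
    by_cases hi : i = 0
    · subst hi
      rw [hM0]
      ring
    · rw [hv i hi]
      ring
  · simp only [bil, map_sum]
    have : ∀ i j, PowerSeries.coeff 1 (v i * M i j * v j) =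
        if i = 0 ∧ j = 0 then
          PowerSeries.constantCoeff (v 0) ^ 2 * PowerSeries.coeff 1 (M 0 0) else 0 := by
      intro i j
      rw [c1, c1, map_mul]
      by_cases hi : i = 0
      · subst hi
        by_cases hj : j = 0
        · subst hj
          rw [if_pos ⟨rfl, rfl⟩, hM0]
          ring
        · rw [if_neg (fun h => hj h.2), hM0, hv j hj]
          ring
      · rw [if_neg (fun h => hi h.1), hv i hi]
        by_cases hj : j = 0
        · subst hj
          rw [hM0']
          ring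
        · rw [hv j hj]
          ring
    simp only [this]
    simp [Fin.sum_univ_four]

end parity

end Pool.Agent.Helper32.CY
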