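import Mathlib
import Pool.Agent.Helper32.CY.NS

/-!
# The jet of the discriminant
-/

set_option autoImplicit false

namespace Pool.Agent.Helper32.CY

open MvPolynomial Pool.Agent.Helper37.RP Pool.Agent.Helper76.CY Pool.Agent.Helper92.CY
  Pool.Agent.Helper28.CY

open scoped Matrix

section alg

variable {S : Type*} [CommRing S]

theorem bil_dot (M : Matrix (Fin 4) (Fin 4) S) (u v : Fin 4 → S) : bil M u v = u ⬝ᵥ M *ᵥ v := by
  simp only [bil, Matrix.mulVec, dotProduct, Finset.mul_sum]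
  refine Finset.sum_congr rfl fun i _ => Finset.sum_congr rfl fun j _ => ?_
  ring

/-- The quadratic form after the change of coordinates. -/
theorem bil_conj (H M Mc : Matrix (Fin 4) (Fin 4) S) (a b α β v : Fin 4 → S)
    (hM : Mc = Hᵀ * M * H + Matrix.vecMulVec α (a ᵥ* H) + Matrix.vecMulVec (a ᵥ* H) α +
      Matrix.vecMulVec β (b ᵥ* H) + Matrix.vecMulVec (b ᵥ* H) β)
    (ha : a ⬝ᵥ (H *ᵥ v) = 0) (hb : b ⬝ᵥ (H *ᵥ v) = 0) :
    bil Mc v v = bil M (H *ᵥ v) (H *ᵥ v) := by
  have e1 : ∀ u w : Fin 4 → S, v ⬝ᵥ Matrix.vecMulVec u w *ᵥ v = (u ⬝ᵥ v) * (w ⬝ᵥ v) := by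
    intro u w
    rw [Matrix.vecMulVec_mulVec, dotProduct_smul, MulOpposite.smul_eq_mul_unop,
      MulOpposite.unop_op, dotProduct_comm v u]
  have e2 : v ⬝ᵥ (Hᵀ * M * H) *ᵥ v = (H *ᵥ v) ⬝ᵥ M *ᵥ (H *ᵥ v) := by
    rw [← Matrix.mulVec_mulVec, ← Matrix.mulVec_mulVec, Matrix.dotProduct_mulVec,
      Matrix.vecMul_transpose]
  have e3 : ∀ a : Fin 4 → S, (a ᵥ* H) ⬝ᵥ v = a ⬝ᵥ (H *ᵥ v) := fun a =>
    (Matrix.dotProduct_mulVec a H v).symm
  rw [bil_dot, bil_dot, hM]
  simp only [Matrix.add_mulVec, dotProduct_add, e1, e3, ha, hb]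
  rw [e2]
  ring

/-- Multiples of a linear form vanishing at `w` can be removed. -/
theorem bil_sub (M : Matrix (Fin 4) (Fin 4) S) (a α w : Fin 4 → S) (ha : a ⬝ᵥ w = 0) :
    bil (Matrix.of fun i j => M i j - a i * α j - a j * α i) w w = bil M w w := by
  have e1 : ∀ i j, w i * (Matrix.of fun i j => M i j - a i * α j - a j * α i) i j * w j =
      w i * M i j * w j - (a i * w i) * (α j * w j) - (α i * w i) * (a j * w j) := by
    intro i j
    rw [Matrix.of_apply]
    ring
  have e2 : ∑ i, ∑ j, (a i * w i) * (α j * w j) = 0 := by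
    have : ∑ i, ∑ j, (a i * w i) * (α j * w j) = (a ⬝ᵥ w) * (α ⬝ᵥ w) := by
      simp only [dotProduct, Finset.sum_mul_sum]
    rw [this, ha, zero_mul]
  have e3 : ∑ i, ∑ j, (α i * w i) * (a j * w j) = 0 := by
    have : ∑ i, ∑ j, (α i * w i) * (a j * w j) = (α ⬝ᵥ w) * (a ⬝ᵥ w) := by
      simp only [dotProduct, Finset.sum_mul_sum]
    rw [this, ha, mul_zero]
  unfold bil
  rw [Finset.sum_congr rfl fun i _ => Finset.sum_congr rfl fun j _ => e1 i j]
  simp only [Finset.sum_sub_distrib]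
  rw [e2, e3]
  ring

theorem gram_symm (M N : Matrix (Fin 4) (Fin 4) S) (hM : ∀ i j, M i j = M j i) (i j : Fin 4) :
    gram M N i j = gram M N j i := by
  rw [gram_eq_bil, gram_eq_bil, bil_comm hM]

theorem dot_gram (M : Matrix (Fin 4) (Fin 4) S) (a b : Fin 4 → S) (r : Fin 4 → S)
    (hr : ∀ j, ∑ i, r i * N4 a b i j = 0) (j : Fin 4) :
    ∑ i, r i * gram M (N4 a b) i j = 0 := by
  have hanti : ∀ i j, N4 a b i j = - N4 a b j i := by
    intro i j
    fin_cases i <;> fin_cases j <;> simp [N4]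
  have h1 : ∀ k, ∑ i, r i * N4 a b k i = 0 := by
    intro k
    have : ∑ i, r i * N4 a b k i = - ∑ i, r i * N4 a b i k := by
      rw [← Finset.sum_neg_distrib]
      refine Finset.sum_congr rfl fun i _ => ?_
      rw [hanti k i]
      ring
    rw [this, hr, neg_zero]
  have h2 : ∀ i, r i * gram M (N4 a b) i j =
      2 * ∑ k, ∑ m, (r i * N4 a b k i) * (M k m * N4 a b m j) := by
    intro i
    simp only [gram, Matrix.of_apply, Finset.mul_sum]
    refine Finset.sum_congr rfl fun k _ => Finset.sum_congr rfl fun m _ => ?_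
    ring
  rw [Finset.sum_congr rfl fun i _ => h2 i, ← Finset.mul_sum, Finset.sum_comm]
  have h3 : ∀ k, ∑ i, ∑ m, (r i * N4 a b k i) * (M k m * N4 a b m j) = 0 := by
    intro k
    rw [Finset.sum_comm]
    refine Finset.sum_eq_zero fun m _ => ?_
    rw [← Finset.sum_mul, h1, zero_mul]
  rw [Finset.sum_congr rfl fun k _ => h3 k]
  simp

/-- The gram matrix over the fixed point. -/
theorem gram_flat (M : Matrix (Fin 4) (Fin 4) S) (a b : Fin 4 → S) (hM : ∀ i j, M i j = M j i)
    (h00 : M 0 0 = 0) (h03 : M 0 3 = 0) (ha0 : a 0 = 0) (ha3 : a 3 = 0) (hb0 : b 0 = 0)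
    (hb3 : b 3 = 0) (i j : Fin 4) :
    gram M (N4 a b) i j =
      if i = 0 ∧ j = 0 then 2 * (a 1 * b 2 - a 2 * b 1) ^ 2 * M 3 3 else 0 := by
  have h30 : M 3 0 = 0 := by rw [hM, h03]
  fin_cases i <;> fin_cases j <;>
    simp [gram, N4, plk, Fin.sum_univ_four, h00, h03, h30, ha0, ha3, hb0, hb3] <;> ring

end alg

/-- The form `P` in `y` with `cG c 0 0 * ω ^ 2 = P`. -/
noncomputable def Pg {R : Type*} [CommRing R] (c : Ix → R) : MvPolynomial (Fin 4) R :=
  -2 * bil (quad (pQ c)) (fun k => cG c 0 k) (fun k => cG c 0 k)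

theorem Px_sw {R : Type*} [CommRing R] (c : Ix → R) : Px (fun e => c (swI e)) = Pg c := by
  have e : (fun k => cH (fun e => c (swI e)) 0 k) = fun k => cG c 0 k := by
    funext k
    rw [cG_eq_cH]
  unfold Px Pg
  rw [e, pQ_sw]

theorem Px_eq {R : Type*} [CommRing R] (c : Ix → R) : Px c = Pg (fun e => c (swI e)) := by
  rw [← Px_sw]
  simp only [swI_swI]

theorem aeval_Pg {R S : Type*} [CommRing R] [CommRing S] [Algebra R S] (c : Ix → R)
    (y : Fin 4 → S) : aeval y (Pg c) = -2 * bil ((quad (pQ c)).map (aeval y : _ →ₐ[R] S))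
      (fun k => aeval y (cG c 0 k)) (fun k => aeval y (cG c 0 k)) := by
  unfold Pg
  rw [map_mul]
  congr 1
  · rw [map_neg, map_ofNat]
  · exact map_bil ((aeval y : MvPolynomial (Fin 4) R →ₐ[R] S) : MvPolynomial (Fin 4) R →+* S)
      _ _ _

section jets

variable {L : Type*} [Field L]

/-- The jet of the discriminant after a change of coordinates. -/
theorem jet_gen (h2ne : (2 : L) ≠ 0) (d : Ix → L) (h1 h2 : Matrix (Fin 4) (Fin 4) L)
    (τ : Matrix (Fin 2) (Fin 2) L) (A B : Matrix (Fin 4) (Fin 4) L) (hh1 : h1.det ≠ 0)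
    (hτ : τ.det ≠ 0) (ha1 : h1.adjugate 0 0 ≠ 0) (y z : Fin 4 → PowerSeries L)
    (hz : (h2.map (algebraMap L (PowerSeries L))).mulVec y = z) (α : Fin 4 → PowerSeries L)
    (ha0 : PowerSeries.constantCoeff (aeval z (lin (pL d) 0)) = 0)
    (ha3 : PowerSeries.constantCoeff (aeval z (lin (pL d) 3)) = 0)
    (hb0 : PowerSeries.constantCoeff (aeval z (lin (pL' d) 0)) = 0)
    (hb3 : PowerSeries.constantCoeff (aeval z (lin (pL' d) 3)) = 0)
    (hp : PowerSeries.constantCoeff (aeval z (lin (pL d) 1)) *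
        PowerSeries.constantCoeff (aeval z (lin (pL' d) 2)) -
      PowerSeries.constantCoeff (aeval z (lin (pL d) 2)) *
        PowerSeries.constantCoeff (aeval z (lin (pL' d) 1)) ≠ 0)
    (h00 : PowerSeries.constantCoeff (aeval z (quad (pQ d) 0 0)) = 0)
    (h03 : PowerSeries.constantCoeff (aeval z (quad (pQ d) 0 3)) = 0)
    (h33 : PowerSeries.constantCoeff (aeval z (quad (pQ d) 3 3)) ≠ 0)
    (hM0 : ∀ j, PowerSeries.constantCoeff (aeval z (quad (pQ d) 0 j) -
      aeval z (lin (pL d) 0) * α j - aeval z (lin (pL d) j) * α 0) = 0)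
    (hM1 : PowerSeries.coeff 1 (aeval z (quad (pQ d) 0 0) -
      aeval z (lin (pL d) 0) * α 0 - aeval z (lin (pL d) 0) * α 0) ≠ 0) :
    PowerSeries.constantCoeff (aeval y (cG (act d h1 h2 τ A B) 0 0)) ≠ 0 ∧
      PowerSeries.constantCoeff (aeval y (Pg (act d h1 h2 τ A B))) = 0 ∧
      PowerSeries.coeff 1 (aeval y (Pg (act d h1 h2 τ A B))) ≠ 0 := by
  set cc : (PowerSeries L) →+* L := PowerSeries.constantCoeff (R := L) with hcc
  set H : Matrix (Fin 4) (Fin 4) (PowerSeries L) := h1.map (algebraMap L (PowerSeries L)) with hH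
  set a : Fin 4 → (PowerSeries L) := fun i => aeval z (lin (pL d) i) with ha
  set b : Fin 4 → (PowerSeries L) := fun i => aeval z (lin (pL' d) i) with hb
  set M : Matrix (Fin 4) (Fin 4) (PowerSeries L) := (quad (pQ d)).map (aeval z : _ →ₐ[L] (PowerSeries L)) with hM
  set Cd : Matrix (Fin 4) (Fin 4) (PowerSeries L) := Matrix.of fun i j => aeval z (cG d i j) with hCd
  set Cc : Matrix (Fin 4) (Fin 4) (PowerSeries L) := Matrix.of fun i j =>
    aeval y (cG (act d h1 h2 τ A B) i j) with hCc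
  have hMs : ∀ i j, M i j = M j i := quad_symm _ (fun i j k l => pQ_symm d i j k l) z
  have hCdg : ∀ i j, Cd i j = gram M (N4 a b) i j := fun i j => aeval_chow4 _ _ _ z i j
  have hccC : ∀ x : L, cc (algebraMap L (PowerSeries L) x) = x := by
    intro x
    rw [hcc, PowerSeries.algebraMap_apply]
    simp
  -- constant terms of the forms
  set c0 : L := 2 * (cc (a 1) * cc (b 2) - cc (a 2) * cc (b 1)) ^ 2 * cc (M 3 3) with hc0
  have hc0ne : c0 ≠ 0 := mul_ne_zero (mul_ne_zero h2ne (pow_ne_zero 2 hp)) h33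
  have hcd : ∀ i j, cc (Cd i j) = if i = 0 ∧ j = 0 then c0 else 0 := by
    intro i j
    rw [hCdg, map_gram, map_N4]
    exact gram_flat _ _ _ (fun i j => by rw [Matrix.map_apply, Matrix.map_apply, hMs]) h00 h03
      ha0 ha3 hb0 hb3 i j
  -- the change of coordinates
  have hact : H * Cc * Hᵀ = algebraMap L (PowerSeries L) (h1.det ^ 2 * τ.det ^ 2) • Cd := by
    have := cG_act d h1 h2 τ A B y
    rw [hz] at this
    exact this
  set κ : L := h1.det ^ 2 * τ.det ^ 2 with hκ
  have hκ0 : κ ≠ 0 := mul_ne_zero (pow_ne_zero 2 hh1) (pow_ne_zero 2 hτ)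
  have hHdet : H.det = algebraMap L (PowerSeries L) h1.det := by
    rw [hH, ← RingHom.mapMatrix_apply, ← RingHom.map_det]
  have hadj : H.adjugate = h1.adjugate.map (algebraMap L (PowerSeries L)) := by
    rw [hH, ← RingHom.mapMatrix_apply, ← RingHom.map_adjugate, RingHom.mapMatrix_apply]
  have hCcs : Ccᵀ = Cc := by
    refine Matrix.ext fun i j => ?_
    rw [Matrix.transpose_apply, hCc, Matrix.of_apply, Matrix.of_apply, cG, cG, aeval_chow4,
      aeval_chow4]
    exact gram_symm _ _ (quad_symm _ (fun i j k l => pQ_symm _ i j k l) y) _ _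
  have key : algebraMap L (PowerSeries L) h1.det • (H * Cc) = algebraMap L (PowerSeries L) κ • (Cd * H.adjugateᵀ) := by
    have e1 : H * Cc * Hᵀ * H.adjugateᵀ = algebraMap L (PowerSeries L) h1.det • (H * Cc) := by
      rw [Matrix.mul_assoc, ← Matrix.transpose_mul, Matrix.adjugate_mul, Matrix.transpose_smul,
        Matrix.transpose_one, Matrix.mul_smul, Matrix.mul_one, hHdet]
    rw [← e1, hact, Matrix.smul_mul]
  set v : Fin 4 → (PowerSeries L) := fun k => aeval y (cG (act d h1 h2 τ A B) 0 k) with hv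
  have hvc : ∀ k, v k = Cc k 0 := by
    intro k
    rw [← hCcs, Matrix.transpose_apply, hCc, Matrix.of_apply]
  have hw : ∀ i, algebraMap L (PowerSeries L) h1.det * (H *ᵥ v) i =
      algebraMap L (PowerSeries L) κ * ∑ j, Cd i j * algebraMap L (PowerSeries L) (h1.adjugate 0 j) := by
    intro i
    have e1 := congrFun (congrFun key i) 0
    rw [Matrix.smul_apply, Matrix.smul_apply, smul_eq_mul, smul_eq_mul, Matrix.mul_apply,
      Matrix.mul_apply] at e1
    have e2 : (H *ᵥ v) i = ∑ j, H i j * Cc j 0 := by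
      rw [Matrix.mulVec, dotProduct]
      exact Finset.sum_congr rfl fun j _ => by rw [hvc]
    rw [e2, e1]
    congr 1
    refine Finset.sum_congr rfl fun j _ => ?_
    rw [Matrix.transpose_apply, hadj, Matrix.map_apply]
  have hdu : ∀ x : (PowerSeries L), algebraMap L (PowerSeries L) h1.det * x = 0 → x = 0 := by
    intro x hx
    have hu : IsUnit (algebraMap L (PowerSeries L) h1.det) := (isUnit_iff_ne_zero.2 hh1).map _
    exact (hu.mul_right_eq_zero).1 hx
  have hkill : ∀ r : Fin 4 → (PowerSeries L), (∀ j, ∑ i, r i * N4 a b i j = 0) → r ⬝ᵥ (H *ᵥ v) = 0 := by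
    intro r hr
    apply hdu
    have hg := dot_gram M a b r hr
    rw [dotProduct, Finset.mul_sum]
    have e1 : ∀ i, algebraMap L (PowerSeries L) h1.det * (r i * (H *ᵥ v) i) =
        ∑ j, (algebraMap L (PowerSeries L) κ * algebraMap L (PowerSeries L) (h1.adjugate 0 j)) * (r i * Cd i j) := by
      intro i
      have : algebraMap L (PowerSeries L) h1.det * (r i * (H *ᵥ v) i) =
          r i * (algebraMap L (PowerSeries L) h1.det * (H *ᵥ v) i) := by ring
      rw [this, hw, Finset.mul_sum, Finset.mul_sum]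
      exact Finset.sum_congr rfl fun j _ => by ring
    rw [Finset.sum_congr rfl fun i _ => e1 i, Finset.sum_comm]
    refine Finset.sum_eq_zero fun j _ => ?_
    rw [← Finset.mul_sum]
    have e2 : ∑ i, r i * Cd i j = 0 := by
      rw [← hg j]
      exact Finset.sum_congr rfl fun i _ => by rw [hCdg]
    rw [e2, mul_zero]
  have haw : a ⬝ᵥ (H *ᵥ v) = 0 := hkill a (dot_N4_left a b)
  have hbw : b ⬝ᵥ (H *ᵥ v) = 0 := hkill b (dot_N4_right a b)
  have hbil : bil ((quad (pQ (act d h1 h2 τ A B))).map (aeval y : _ →ₐ[L] (PowerSeries L))) v v =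
      bil (Matrix.of fun i j => M i j - a i * α j - a j * α i) (H *ᵥ v) (H *ᵥ v) := by
    rw [bil_sub _ _ _ _ haw]
    have := quad_act d h1 h2 τ A B y
    rw [hz] at this
    exact bil_conj H M _ a b _ _ v this haw hbw
  -- constant terms of `w`
  have hcw : ∀ i, h1.det * cc ((H *ᵥ v) i) =
      if i = 0 then κ * (c0 * h1.adjugate 0 0) else 0 := by
    intro i
    have e1 := congrArg cc (hw i)
    rw [map_mul, hccC, map_mul, hccC, map_sum] at e1
    rw [e1]
    have e2 : ∀ j, cc (Cd i j * algebraMap L (PowerSeries L) (h1.adjugate 0 j)) =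
        if i = 0 ∧ j = 0 then c0 * h1.adjugate 0 0 else 0 := by
      intro j
      rw [map_mul, hccC, hcd]
      split_ifs with h
      · rw [h.2]
      · rw [zero_mul]
    rw [Finset.sum_congr rfl fun j _ => e2 j]
    by_cases hi : i = 0
    · simp [hi]
    · simp [hi]
  have hcw0 : cc ((H *ᵥ v) 0) ≠ 0 := by
    intro h
    have := hcw 0
    rw [h, if_pos rfl, mul_zero] at this
    exact mul_ne_zero hκ0 (mul_ne_zero hc0ne ha1) this.symm
  have hcwi : ∀ i, i ≠ 0 → cc ((H *ᵥ v) i) = 0 := by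
    intro i hi
    have := hcw i
    rw [if_neg hi] at this
    exact (mul_eq_zero.1 this).resolve_left hh1
  obtain ⟨j0, j1⟩ := jet_bil (H *ᵥ v) (Matrix.of fun i j => M i j - a i * α j - a j * α i)
    (fun i j => by rw [Matrix.of_apply, Matrix.of_apply, hMs i j]; ring) hcwi hM0
  have hPg : aeval y (Pg (act d h1 h2 τ A B)) =
      -2 * bil (Matrix.of fun i j => M i j - a i * α j - a j * α i) (H *ᵥ v) (H *ᵥ v) := by
    rw [aeval_Pg, ← hbil]
  refine ⟨?_, ?_, ?_⟩
  · -- `det * C_00 = adj_0 . w`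
    have e1 : algebraMap L (PowerSeries L) h1.det * v 0 =
        ∑ i, algebraMap L (PowerSeries L) (h1.adjugate 0 i) * (H *ᵥ v) i := by
      have : H.adjugate *ᵥ (H *ᵥ v) = H.det • v := by
        rw [Matrix.mulVec_mulVec, Matrix.adjugate_mul, Matrix.smul_mulVec, Matrix.one_mulVec]
      have e2 := congrFun this 0
      rw [Pi.smul_apply, smul_eq_mul, hHdet] at e2
      rw [← e2, Matrix.mulVec, dotProduct]
      refine Finset.sum_congr rfl fun i _ => ?_
      rw [hadj, Matrix.map_apply]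
    have e3 := congrArg cc e1
    rw [map_mul, hccC, map_sum] at e3
    have e4 : ∀ i, cc (algebraMap L (PowerSeries L) (h1.adjugate 0 i) * (H *ᵥ v) i) =
        if i = 0 then h1.adjugate 0 0 * cc ((H *ᵥ v) 0) else 0 := by
      intro i
      rw [map_mul, hccC]
      split_ifs with h
      · rw [h]
      · rw [hcwi i h, mul_zero]
    rw [Finset.sum_congr rfl fun i _ => e4 i] at e3
    intro h
    have e5 : cc (v 0) = 0 := h
    rw [e5, mul_zero] at e3
    simp at e3
    rcases e3 with e3 | e3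
    · exact ha1 e3
    · exact hcw0 e3
  · rw [hPg, map_mul]
    have : cc (bil (Matrix.of fun i j => M i j - a i * α j - a j * α i) (H *ᵥ v) (H *ᵥ v)) = 0 :=
      j0
    rw [this, mul_zero]
  · rw [hPg]
    have e6 : (-2 : (PowerSeries L)) = PowerSeries.C (-2 : L) := by
      rw [map_neg, map_ofNat]
    rw [e6, PowerSeries.coeff_C_mul, j1]
    exact mul_ne_zero (neg_ne_zero.2 h2ne) (mul_ne_zero (pow_ne_zero 2 hcw0) hM1)

end jets

end Pool.Agent.Helper32.CY
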