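import Mathlib
import Pool.Agent.Helper32.CY.NS2

/-!
# CY-9c, CY-9d: the discriminants are not squares
-/

set_option autoImplicit false

namespace Pool.Agent.Helper32.CY

open MvPolynomial Pool.Agent.Helper37.RP Pool.Agent.Helper76.CY Pool.Agent.Helper92.CY
  Pool.Agent.Helper28.CY

open scoped Matrix

section

variable {K L : Type} [Field K] [Field L] [Algebra K L]

theorem cG_ext (c : Ix → K) (e : Ix → L) (hc : (fun i => algebraMap K L (c i)) = e)
    (i j : Fin 4) : MvPolynomial.map (algebraMap K L) (cG c i j) = cG e i j := by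
  subst hc
  have e3 : (fun i j k l => algebraMap K L (pQ c i j k l)) =
      pQ fun i => algebraMap K L (c i) := by
    funext i j k l
    simp only [pQ, map_add]
  rw [cG, cG, map_chow4, e3]
  rfl

theorem quad_ext (c : Ix → K) (e : Ix → L) (hc : (fun i => algebraMap K L (c i)) = e) :
    (quad (pQ c)).map (MvPolynomial.map (algebraMap K L)) = quad (pQ e) := by
  subst hc
  have e3 : (fun i j k l => algebraMap K L (pQ c i j k l)) =
      pQ fun i => algebraMap K L (c i) := by
    funext i j k l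
    simp only [pQ, map_add]
  rw [map_quad, e3]

theorem Pg_ext (c : Ix → K) (e : Ix → L) (hc : (fun i => algebraMap K L (c i)) = e) :
    MvPolynomial.map (algebraMap K L) (Pg c) = Pg e := by
  unfold Pg
  rw [map_mul, map_bil, quad_ext c e hc]
  simp only [cG_ext c e hc]
  rw [map_neg, map_ofNat]

/-- The discriminant is not a square if it has a simple zero along a jet. -/
theorem ns_of_jet (c : Ix → K) (e : Ix → L) (hc : (fun i => algebraMap K L (c i)) = e)
    (x : Fin 3 → PowerSeries L)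
    (hH : PowerSeries.constantCoeff (aeval (aff x) (cG e 0 0)) ≠ 0)
    (h0 : PowerSeries.constantCoeff (aeval (aff x) (Pg e)) = 0)
    (h1 : PowerSeries.coeff 1 (aeval (aff x) (Pg e)) ≠ 0) : NS (fun i => c (swI i)) := by
  intro r0 r1 h
  rw [← cG_eq_cH, Px_sw] at h
  have key : ∀ F : MvPolynomial (Fin 4) K,
      ((aeval x : MvPolynomial (Fin 3) K →ₐ[K] PowerSeries L) : MvPolynomial (Fin 3) K →+* _)
        (deh F) = aeval (aff x) (MvPolynomial.map (algebraMap K L) F) := by
    intro F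
    rw [aeval_map_algebraMap]
    exact Pool.Agent.Helper51.CY.aeval_deh x F
  refine parity ((aeval x : MvPolynomial (Fin 3) K →ₐ[K] PowerSeries L) :
    MvPolynomial (Fin 3) K →+* PowerSeries L) (deh (cG c 0 0)) (deh (Pg c)) r0 r1 ?_ ?_ ?_ h
  · rw [key, cG_ext c e hc]
    exact hH
  · rw [key, Pg_ext c e hc]
    exact h0
  · rw [key, Pg_ext c e hc]
    exact h1

end

section jets

variable {L : Type} [Field L]

/-- The jet `e0 + ε e_v`, up to a unit. -/
theorem exists_jet (h : Matrix (Fin 4) (Fin 4) L) (hdet : h.det ≠ 0)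
    (hadj : h.adjugate 0 0 ≠ 0) (v : Fin 4) (hv : v ≠ 0) :
    ∃ (x : Fin 3 → PowerSeries L) (u : PowerSeries L), PowerSeries.constantCoeff u ≠ 0 ∧
      (h.map (algebraMap L (PowerSeries L))).mulVec (aff x) =
        fun j => u * ((if j = 0 then 1 else 0) + (if j = v then PowerSeries.X else 0)) := by
  set ζ : Fin 4 → PowerSeries L := fun i => algebraMap L (PowerSeries L) (h.adjugate i 0) +
    algebraMap L (PowerSeries L) (h.adjugate i v) * PowerSeries.X with hζ
  have hζ0 : PowerSeries.constantCoeff (ζ 0) ≠ 0 := by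
    rw [hζ]
    simp only [PowerSeries.algebraMap_apply, map_add, map_mul, PowerSeries.constantCoeff_X,
      mul_zero, add_zero]
    simpa using hadj
  have hmul : ζ 0 * (ζ 0)⁻¹ = 1 := PowerSeries.mul_inv_cancel _ hζ0
  have haff : aff (fun i : Fin 3 => ζ i.succ * (ζ 0)⁻¹) = fun j => ζ j * (ζ 0)⁻¹ := by
    funext j
    refine Fin.cases ?_ (fun i => ?_) j
    · rw [hmul]
      rfl
    · rfl
  have hmv : ∀ j, ∑ i, algebraMap L (PowerSeries L) (h j i) * ζ i =
      algebraMap L (PowerSeries L) h.det *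
        ((if j = 0 then 1 else 0) + (if j = v then PowerSeries.X else 0)) := by
    intro j
    have e1 : ∀ w, ∑ i, h j i * h.adjugate i w = if j = w then h.det else 0 := by
      intro w
      have := congrFun (congrFun (Matrix.mul_adjugate h) j) w
      rw [Matrix.mul_apply] at this
      rw [this, Matrix.smul_apply, Matrix.one_apply, smul_eq_mul]
      split_ifs <;> simp
    have e2 : ∀ i, algebraMap L (PowerSeries L) (h j i) * ζ i =
        algebraMap L (PowerSeries L) (h j i * h.adjugate i 0) +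
          algebraMap L (PowerSeries L) (h j i * h.adjugate i v) * PowerSeries.X := by
      intro i
      rw [hζ, map_mul, map_mul]
      ring
    rw [Finset.sum_congr rfl fun i _ => e2 i, Finset.sum_add_distrib, ← Finset.sum_mul,
      ← map_sum, ← map_sum, e1, e1]
    by_cases h0 : j = 0
    · subst h0
      rw [if_pos rfl, if_pos rfl, if_neg hv.symm, if_neg hv.symm]
      simp
    · by_cases h1 : j = v
      · subst h1
        rw [if_neg h0, if_neg h0, if_pos rfl, if_pos rfl]
        simp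
      · rw [if_neg h0, if_neg h0, if_neg h1, if_neg h1]
        simp
  refine ⟨fun i => ζ i.succ * (ζ 0)⁻¹, algebraMap L (PowerSeries L) h.det * (ζ 0)⁻¹, ?_, ?_⟩
  · intro h0
    have e3 := congrArg PowerSeries.constantCoeff hmul
    rw [map_mul, map_one] at e3
    rw [map_mul, mul_eq_zero] at h0
    rcases h0 with h0 | h0
    · rw [PowerSeries.algebraMap_apply] at h0
      simp at h0
      exact hdet h0
    · rw [h0, mul_zero] at e3
      exact zero_ne_one e3
  · rw [haff]
    funext j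
    rw [Matrix.mulVec, dotProduct]
    have e4 : ∀ i, h.map (algebraMap L (PowerSeries L)) j i * (ζ i * (ζ 0)⁻¹) =
        (algebraMap L (PowerSeries L) (h j i) * ζ i) * (ζ 0)⁻¹ := by
      intro i
      rw [Matrix.map_apply]
      ring
    rw [Finset.sum_congr rfl fun i _ => e4 i, ← Finset.sum_mul, hmv]
    ring

variable (u : PowerSeries L) (v : Fin 4)

theorem lin_jet (hv : v ≠ 0) (M : Matrix (Fin 4) (Fin 4) L) (i : Fin 4) :
    aeval (fun j => u * ((if j = 0 then 1 else 0) + (if j = v then PowerSeries.X else 0)))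
      (lin M i) = u * (PowerSeries.C (M i 0) + PowerSeries.C (M i v) * PowerSeries.X) := by
  rw [aeval_lin]
  have : ∀ w, algebraMap L (PowerSeries L) w = PowerSeries.C w := fun w => by
    rw [PowerSeries.algebraMap_apply]
    simp
  simp only [this, Fin.sum_univ_four]
  fin_cases v
  · exact absurd rfl hv
  all_goals simp
  all_goals ring

theorem quad_jet (hv : v ≠ 0) (Q : Fin 4 → Fin 4 → Fin 4 → Fin 4 → L) (i j : Fin 4) :
    aeval (fun j => u * ((if j = 0 then 1 else 0) + (if j = v then PowerSeries.X else 0)))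
      (quad Q i j) = u ^ 2 * (PowerSeries.C (Q i j 0 0) +
        PowerSeries.C (Q i j 0 v + Q i j v 0) * PowerSeries.X +
          PowerSeries.C (Q i j v v) * PowerSeries.X ^ 2) := by
  rw [aeval_quad]
  have : ∀ w, algebraMap L (PowerSeries L) w = PowerSeries.C w := fun w => by
    rw [PowerSeries.algebraMap_apply]
    simp
  simp only [this, Fin.sum_univ_four]
  fin_cases v
  · exact absurd rfl hv
  all_goals simp
  all_goals ring

end jets

section main

variable {K L : Type} [Field K] [Field L] [Algebra K L]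

theorem cc_lin (u : PowerSeries L) (a b : L) :
    PowerSeries.constantCoeff (u * (PowerSeries.C a + PowerSeries.C b * PowerSeries.X)) =
      PowerSeries.constantCoeff u * a := by
  simp

theorem cc_quad (u : PowerSeries L) (a b c : L) :
    PowerSeries.constantCoeff (u ^ 2 * (PowerSeries.C a + PowerSeries.C b * PowerSeries.X +
      PowerSeries.C c * PowerSeries.X ^ 2)) = PowerSeries.constantCoeff u ^ 2 * a := by
  simp

theorem c1_lin (u : PowerSeries L) (b : L) :
    PowerSeries.coeff 1 (u * (PowerSeries.C 0 + PowerSeries.C b * PowerSeries.X) * u) =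
      PowerSeries.constantCoeff u ^ 2 * b := by
  have : u * (PowerSeries.C 0 + PowerSeries.C b * PowerSeries.X) * u =
      PowerSeries.C b * (u * u * PowerSeries.X) := by
    rw [map_zero]
    ring
  rw [this, PowerSeries.coeff_C_mul, PowerSeries.coeff_one_mul]
  simp
  ring

theorem c1_quad (u : PowerSeries L) (b c : L) :
    PowerSeries.coeff 1 (u ^ 2 * (PowerSeries.C 0 + PowerSeries.C b * PowerSeries.X +
      PowerSeries.C c * PowerSeries.X ^ 2)) = PowerSeries.constantCoeff u ^ 2 * b := by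
  have : u ^ 2 * (PowerSeries.C 0 + PowerSeries.C b * PowerSeries.X +
      PowerSeries.C c * PowerSeries.X ^ 2) = PowerSeries.C b * (u * u * PowerSeries.X) +
        PowerSeries.C c * (u * u * PowerSeries.X ^ 2) := by
    rw [map_zero]
    ring
  have e1 : PowerSeries.coeff 1 (u * u * PowerSeries.X ^ 2) = 0 := by
    rw [PowerSeries.coeff_mul_X_pow']
    simp
  have e2 : PowerSeries.coeff 1 (u * u * PowerSeries.X) = PowerSeries.constantCoeff u ^ 2 := by
    rw [PowerSeries.coeff_one_mul]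
    simp
    ring
  rw [this, map_add, PowerSeries.coeff_C_mul, PowerSeries.coeff_C_mul, e1, e2]
  ring

/-- CY-9d. The same over `y`: the jet at `h2⁻¹ (e0 + ε e1)`. -/
theorem ns_y (h2 : (2 : L) ≠ 0) (c : Ix → K)
    (d : Ix → L) (h1 h2 : Matrix (Fin 4) (Fin 4) L) (τ : Matrix (Fin 2) (Fin 2) L)
    (A B : Matrix (Fin 4) (Fin 4) L) (hd : Gen d) (hh1 : h1.det ≠ 0) (hh2 : h2.det ≠ 0)
    (hτ : τ.det ≠ 0) (ha1 : h1.adjugate 0 0 ≠ 0) (ha2 : h2.adjugate 0 0 ≠ 0)
    (hc : (fun e => algebraMap K L (c e)) = act d h1 h2 τ A B) : NS (fun e => c (swI e)) := by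
  obtain ⟨x, u, hu, hx⟩ := exists_jet h2 hh2 ha2 1 (by decide)
  have hs := hd.std
  have g := jet_gen ‹(2 : L) ≠ 0› d h1 h2 τ A B hh1 hτ ha1 (aff x) _ hx
    (fun j => if j = 0 then u else 0)
  simp only [lin_jet u 1 (by decide), quad_jet u 1 (by decide), ↓reduceIte] at g
  have l0 : pL d 0 0 = 0 := by rw [hs.l0]; rfl
  have l01 : pL d 0 1 = 1 := by rw [hs.l0]; rfl
  have l1 : pL d 1 0 = 0 := by rw [hs.l1]; rfl
  have m0 : pL' d 0 0 = 0 := by rw [hs.m0]; rfl
  have m1 : pL' d 1 0 = 1 := by rw [hs.m1]; rfl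
  have k5 : pQ d 0 0 0 1 = 0 := hs.q00 1
  have k6 : pQ d 0 0 1 0 = 0 := by rw [pQ_symm', hs.q00]
  obtain ⟨g1, g2, g3⟩ := g (by rw [cc_lin, l0, mul_zero]) (by rw [cc_lin, hs.l3, mul_zero])
    (by rw [cc_lin, m0, mul_zero]) (by rw [cc_lin, hs.m3, mul_zero])
    (by
      rw [cc_lin, cc_lin, cc_lin, cc_lin, l1, hs.m2, hs.l2, m1]
      simpa using hu)
    (by rw [cc_quad, hs.q00, mul_zero]) (by rw [cc_quad, hs.q3, mul_zero])
    (by
      rw [cc_quad, hs.qP]
      simpa using hu)
    (by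
      intro j
      fin_cases j
      · simp [hs.q00, l0]
      · simp [hs.q1, l0, l1]
      · simp [hs.q2, l0, hs.l2]
        ring
      · simp [hs.q3, l0, hs.l3])
    (by
      rw [map_sub, map_sub, l0, k5, k6, hs.q00, c1_lin, c1_quad, l01]
      have : PowerSeries.constantCoeff u ^ 2 * (0 + 0) - PowerSeries.constantCoeff u ^ 2 * 1 -
        PowerSeries.constantCoeff u ^ 2 * 1 = -(2 * PowerSeries.constantCoeff u ^ 2) := by ring
      rw [this]
      exact neg_ne_zero.2 (mul_ne_zero ‹(2 : L) ≠ 0› (pow_ne_zero 2 hu)))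
  exact ns_of_jet c _ hc x g1 g2 g3

/-- CY-9c. The discriminant is not a square: the jet at `h1⁻¹ (e0 + ε e2)`. -/
theorem ns_x (h2 : (2 : L) ≠ 0) (c : Ix → K)
    (d : Ix → L) (h1 h2 : Matrix (Fin 4) (Fin 4) L) (τ : Matrix (Fin 2) (Fin 2) L)
    (A B : Matrix (Fin 4) (Fin 4) L) (hd : Gen d) (hh1 : h1.det ≠ 0) (hh2 : h2.det ≠ 0)
    (hτ : τ.det ≠ 0) (ha1 : h1.adjugate 0 0 ≠ 0) (ha2 : h2.adjugate 0 0 ≠ 0)
    (hc : (fun e => algebraMap K L (c e)) = act d h1 h2 τ A B) : NS c := by
  obtain ⟨x, u, hu, hx⟩ := exists_jet h1 hh1 ha1 2 (by decide)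
  have hs := hd.std
  have g := jet_gen ‹(2 : L) ≠ 0› (fun e => d (swI e)) h2 h1 τ Aᵀ Bᵀ hh2 hτ ha2 (aff x) _ hx
    (fun _ => 0)
  simp only [lin_jet u 2 (by decide), quad_jet u 2 (by decide), pL_sw, pL'_sw, pQ_sw] at g
  have l0 : pL d 0 0 = 0 := by rw [hs.l0]; rfl
  have l1 : pL d 0 1 = 1 := by rw [hs.l0]; rfl
  have l2 : pL d 0 2 = 0 := by rw [hs.l0]; rfl
  have l3 : pL d 0 3 = 0 := by rw [hs.l0]; rfl
  have m0 : pL' d 0 0 = 0 := by rw [hs.m0]; rfl
  have m1 : pL' d 0 1 = 0 := by rw [hs.m0]; rfl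
  have m2 : pL' d 0 2 = 1 := by rw [hs.m0]; rfl
  have m3 : pL' d 0 3 = 0 := by rw [hs.m0]; rfl
  have k6 : pQ d 2 0 0 0 = 1 := by rw [pQ_symm, hs.q2]
  obtain ⟨g1, g2, g3⟩ := g (by rw [cc_lin, l0, mul_zero]) (by rw [cc_lin, l3, mul_zero])
    (by rw [cc_lin, m0, mul_zero]) (by rw [cc_lin, m3, mul_zero])
    (by
      rw [cc_lin, cc_lin, cc_lin, cc_lin, l1, m2, l2, m1]
      simpa using hu)
    (by rw [cc_quad, hs.q00, mul_zero]) (by rw [cc_quad, hs.q00, mul_zero])
    (by
      rw [cc_quad, hs.qR]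
      exact mul_ne_zero (pow_ne_zero 2 hu)
        (mul_ne_zero (mul_ne_zero ‹(2 : L) ≠ 0› hd.hm) hd.hd))
    (by
      intro j
      rw [map_sub, map_sub, mul_zero, mul_zero, map_zero, sub_zero, sub_zero, cc_quad, hs.q00,
        mul_zero])
    (by
      rw [mul_zero, sub_zero, sub_zero, hs.q00, k6, hs.q2, c1_quad, one_add_one_eq_two]
      exact mul_ne_zero (pow_ne_zero 2 hu) ‹(2 : L) ≠ 0›)
  have h := ns_of_jet (fun e => c (swI e)) (act (fun e => d (swI e)) h2 h1 τ Aᵀ Bᵀ)
    (by rw [← act_sw, ← hc]) x g1 g2 g3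
  simpa only [swI_swI] using h

end main

end Pool.Agent.Helper32.CY
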